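import Mathlib
import Pool.Agent.Helper96.LB3.Stmts

open MeasureTheory Module
open scoped ENNReal

namespace Pool.Agent.Helper73.LB3

open Pool.Agent.Helper96.LB3

/-- Coordinate scaling of the plane. -/
noncomputable def scl (x y : ℝ) : (ℝ × ℝ) →ₗ[ℝ] (ℝ × ℝ) :=
  LinearMap.prodMap (x • LinearMap.id) (y • LinearMap.id)

theorem scl_apply (x y : ℝ) (p : ℝ × ℝ) : scl x y p = (x * p.1, y * p.2) := by
  simp [scl]

theorem det_scl (x y : ℝ) : LinearMap.det (scl x y) = x * y := by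
  simp [scl, LinearMap.det_prodMap]

theorem real_scl {x y : ℝ} (hx : 0 < x) (hy : 0 < y) (S : Set (ℝ × ℝ)) :
    (volume : Measure (ℝ × ℝ)).real (scl x y '' S) =
      x * y * (volume : Measure (ℝ × ℝ)).real S := by
  unfold Measure.real
  rw [Measure.addHaar_image_linearMap, det_scl, ENNReal.toReal_mul, abs_of_pos (mul_pos hx hy),
    ENNReal.toReal_ofReal (mul_pos hx hy).le]

/-- The two signs of a strip parallel to the third direction. -/
theorem box_of_EG {ι : Type} {b1 b2 q h : ι → ℝ} {k : ι} {y : ℝ × ℝ} (hq : q k = 0)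
    (hy : ∀ e : EI ι, EG b1 q e * y.1 + EG b2 q e * y.2 ≤ EA q h e) :
    |b1 k * y.1 + b2 k * y.2| ≤ h k := by
  have h1 := hy (Sum.inr (k, true))
  have h2 := hy (Sum.inr (k, false))
  simp [EG, EA, hq] at h1 h2
  rw [abs_le]
  constructor
  · linarith
  · linarith

theorem sym_EG {ι : Type} (b1 b2 q h : ι → ℝ) (x y c : ℝ) :
    Sym (fun e => EG b1 q e * x) (fun e => EG b2 q e * y) (fun e => EA q h e * c) := by
  rintro (⟨u, v⟩ | ⟨u, s⟩)
  · refine ⟨Sum.inl (v, u), ?_, ?_, ?_⟩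
    · simp only [EG, and_comm (a := q v ≠ 0)]
      split_ifs <;> ring
    · simp only [EG, and_comm (a := q v ≠ 0)]
      split_ifs <;> ring
    · simp only [EA, and_comm (a := q v ≠ 0)]
      split_ifs <;> ring
  · refine ⟨Sum.inr (u, !s), ?_, ?_, ?_⟩
    · cases s <;> simp only [EG] <;> split_ifs <;> simp_all
    · cases s <;> simp only [EG] <;> split_ifs <;> simp_all
    · simp only [EA]

/-- The heightwise inequality. -/
theorem EA_le {ι : Type} {q hp hm g : ι → ℝ} {c d s : ℝ} 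
    (H : ∀ u, hp u * c + hm u * d ≤ s * g u) (e : EI ι) :
    EA q hp e * c + EA q hm e * d ≤ s * EA q g e := by
  rcases e with ⟨u, v⟩ | ⟨u, b⟩
  · simp only [EA]
    split_ifs with h
    · have hu : 0 < |q u| := abs_pos.2 h.1
      have hv : 0 < |q v| := abs_pos.2 h.2
      have e1 : (hp v / |q v| + hp u / |q u|) * c + (hm v / |q v| + hm u / |q u|) * d =
          (hp v * c + hm v * d) / |q v| + (hp u * c + hm u * d) / |q u| := by ring
      have e2 : s * (g v / |q v| + g u / |q u|) = (s * g v) / |q v| + (s * g u) / |q u| := by ring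
      rw [e1, e2]
      exact add_le_add (div_le_div_of_nonneg_right (H v) hv.le)
        (div_le_div_of_nonneg_right (H u) hu.le)
    · simp
  · simp only [EA]
    split_ifs with h
    · exact H u
    · simp

/-- The projection is a scaled copy of the polygon `Q`. -/
theorem proj_eq {ι : Type} [Fintype ι] (hel : ST_HEL) {b1 b2 q h : ι → ℝ} {k l : ι} {x y c : ℝ}
    (hx : 0 < x) (hy : 0 < y) (hc : 0 < c)
    (k1 : b1 k = 1) (k2 : b2 k = 0) (k3 : q k = 0) (l1 : b1 l = 0) (l2 : b2 l = 1)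
    (l3 : q l = 0) (hk : h k = x) (hl : h l = y) {g1 g2 A : EI ι → ℝ}
    (e1 : ∀ e, g1 e = EG b1 q e * (x * c)) (e2 : ∀ e, g2 e = EG b2 q e * (y * c))
    (e3 : ∀ e, A e = EA q h e * c) :
    {y : ℝ × ℝ | ∃ z : ℝ, ∀ u, |b1 u * y.1 + b2 u * y.2 + q u * z| ≤ h u} =
      scl x y '' Q g1 g2 A := by
  ext p
  simp only [Set.mem_ofPred_eq, Set.mem_image]
  rw [hel ι b1 b2 q h p.1 p.2]
  constructor
  · intro hp
    refine ⟨(p.1 / x, p.2 / y), ⟨?_, ?_, ?_⟩, ?_⟩
    · have := box_of_EG (k := k) k3 hp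
      rw [k1, k2, hk] at this
      simp only [abs_div, abs_of_pos hx]
      rw [div_le_one hx]
      simpa using this
    · have := box_of_EG (k := l) l3 hp
      rw [l1, l2, hl] at this
      simp only [abs_div, abs_of_pos hy]
      rw [div_le_one hy]
      simpa using this
    · intro e
      rw [e1, e2, e3]
      have h1 : EG b1 q e * (x * c) * (p.1 / x) + EG b2 q e * (y * c) * (p.2 / y) =
          (EG b1 q e * p.1 + EG b2 q e * p.2) * c := by
        field_simp
      rw [h1]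
      exact mul_le_mul_of_nonneg_right (hp e) hc.le
    · rw [scl_apply]
      ext
      · simp only
        field_simp
      · simp only
        field_simp
  · rintro ⟨p', ⟨-, -, hQ⟩, rfl⟩ e
    have := hQ e
    rw [e1, e2, e3] at this
    rw [scl_apply]
    simp only
    have h1 : EG b1 q e * (x * c) * p'.1 + EG b2 q e * (y * c) * p'.2 =
        (EG b1 q e * (x * p'.1) + EG b2 q e * (y * p'.2)) * c := by ring
    rw [h1] at this
    exact le_of_mul_le_mul_right this hc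

/-- A point of the projection gives a point of `Q`. -/
theorem mem_Q {ι : Type} [Fintype ι] (hel : ST_HEL) {b1 b2 q h : ι → ℝ} {k l : ι} {x y c : ℝ}
    (hx : 0 < x) (hy : 0 < y) (hc : 0 < c)
    (k1 : b1 k = 1) (k2 : b2 k = 0) (k3 : q k = 0) (l1 : b1 l = 0) (l2 : b2 l = 1)
    (l3 : q l = 0) (hk : h k = x) (hl : h l = y) {g1 g2 A : EI ι → ℝ}
    (e1 : ∀ e, g1 e = EG b1 q e * (x * c)) (e2 : ∀ e, g2 e = EG b2 q e * (y * c))
    (e3 : ∀ e, A e = EA q h e * c) {y1 y2 z : ℝ}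
    (hz : ∀ u, |b1 u * y1 + b2 u * y2 + q u * z| ≤ h u) :
    (y1 / x, y2 / y) ∈ Q g1 g2 A := by
  have hm : (y1, y2) ∈ {y : ℝ × ℝ | ∃ z : ℝ, ∀ u, |b1 u * y.1 + b2 u * y.2 + q u * z| ≤ h u} :=
    ⟨z, hz⟩
  rw [proj_eq hel hx hy hc k1 k2 k3 l1 l2 l3 hk hl e1 e2 e3] at hm
  obtain ⟨p, hp, hpe⟩ := hm
  rw [scl_apply] at hpe
  have h1 : x * p.1 = y1 := congrArg Prod.fst hpe
  have h2 : y * p.2 = y2 := congrArg Prod.snd hpe
  have : (y1 / x, y2 / y) = p := by
    ext
    · simp only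
      rw [← h1]
      field_simp
    · simp only
      rw [← h2]
      field_simp
  rw [this]
  exact hp

/-- Scalar inequality: `t + 1 / t ≤ r + 1 / r` for `t ∈ [1 / r, r]`. -/
theorem cosh_le {t r : ℝ} (hr : 1 ≤ r) (ht : 0 < t) (h1 : t ≤ r) (h2 : r⁻¹ ≤ t) :
    t + t⁻¹ ≤ r + r⁻¹ := by
  have hr0 : 0 < r := by linarith
  have h3 : 1 ≤ r * t := by
    have := mul_le_mul_of_nonneg_left h2 hr0.le
    rwa [mul_inv_cancel₀ hr0.ne'] at this
  have h4 : r + r⁻¹ - (t + t⁻¹) = (r - t) * (r * t - 1) / (r * t) := by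
    field_simp
    ring
  have h5 : 0 ≤ (r - t) * (r * t - 1) / (r * t) :=
    div_nonneg (mul_nonneg (by linarith) (by linarith)) (mul_pos hr0 ht).le
  linarith

theorem st_PL3 : ST_HEL → ST_CL → ST_PL3 := by
  intro hel cl ι _ b1 b2 q hp hm k l hpp hmp k1 k2 k3 l1 l2 l3 hk hl t1 t2 t3 t4
  obtain ⟨y1, y2, z, hz1, hy1⟩ := t1
  obtain ⟨y1', y2', z', hz1', hy1'⟩ := t2
  obtain ⟨w1, w2, v, hv1, hw1⟩ := t3
  obtain ⟨w1', w2', v', hv1', hw1'⟩ := t4
  -- the exponentials of the half logarithmic ratios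
  set E : ι → ℝ := fun u => √(hp u / hm u) with hE
  have hEpos : ∀ u, 0 < E u := fun u => Real.sqrt_pos.2 (div_pos (hpp u) (hmp u))
  have hgpos : ∀ u, 0 < gm hp hm u := fun u => Real.sqrt_pos.2 (mul_pos (hpp u) (hmp u))
  have hE1 : ∀ u, gm hp hm u * E u = hp u := by
    intro u
    have : gm hp hm u * E u = √(hp u * hm u * (hp u / hm u)) := by
      rw [Real.sqrt_mul (mul_pos (hpp u) (hmp u)).le]
      rfl
    rw [this]
    have h2 : hp u * hm u * (hp u / hm u) = hp u ^ 2 := by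
      have := (hmp u).ne'
      field_simp
    rw [h2, Real.sqrt_sq (hpp u).le]
  have hgg : ∀ u, gm hp hm u * gm hp hm u = hp u * hm u := fun u =>
    Real.mul_self_sqrt (mul_pos (hpp u) (hmp u)).le
  have hE2 : ∀ u, gm hp hm u * (E u)⁻¹ = hm u := by
    intro u
    have h1 := hE1 u
    have h2 := hgg u
    have h3 := (hEpos u).ne'
    have h4 := (hgpos u).ne'
    have h5 : gm hp hm u * gm hp hm u = gm hp hm u * E u * hm u := by rw [h1, h2]
    have h6 : gm hp hm u = E u * hm u := by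
      have : gm hp hm u * gm hp hm u = gm hp hm u * (E u * hm u) := by rw [h5]; ring
      exact mul_left_cancel₀ h4 this
    rw [h6]
    field_simp
  have hEk : ∀ u, E u ≤ E k := by
    intro u
    refine Real.sqrt_le_sqrt ?_
    rw [div_le_div_iff₀ (hmp u) (hmp k)]
    exact hk u
  have hEl : ∀ u, E l ≤ E u := by
    intro u
    refine Real.sqrt_le_sqrt ?_
    rw [div_le_div_iff₀ (hmp l) (hmp u)]
    exact hl u
  set c : ℝ := √(E k * E l) with hcdef
  set r : ℝ := √(E k / E l) with hrdef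
  have hcpos : 0 < c := Real.sqrt_pos.2 (mul_pos (hEpos k) (hEpos l))
  have hrpos : 0 < r := Real.sqrt_pos.2 (div_pos (hEpos k) (hEpos l))
  have hr1 : 1 ≤ r := by
    rw [hrdef, Real.one_le_sqrt, one_le_div (hEpos l)]
    exact hEk l
  have hrc : r * c = E k := by
    rw [hcdef, hrdef, ← Real.sqrt_mul (div_pos (hEpos k) (hEpos l)).le]
    have : E k / E l * (E k * E l) = E k ^ 2 := by
      have := (hEpos l).ne'
      field_simp
    rw [this, Real.sqrt_sq (hEpos k).le]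
  have hcr : c * r⁻¹ = E l := by
    have h1 : c * c = E k * E l := Real.mul_self_sqrt (mul_pos (hEpos k) (hEpos l)).le
    have h2 : c * (c * r⁻¹) = c * (E l * 1) := by
      have : E k * E l * r⁻¹ = c * E l := by
        rw [← hrc]
        field_simp
      rw [← mul_assoc, h1, this, mul_one]
    have := mul_left_cancel₀ hcpos.ne' h2
    rw [this, mul_one]
  -- the key height inequality
  have hH : ∀ u, hp u * c⁻¹ + hm u * c ≤ (r + r⁻¹) * gm hp hm u := by
    intro u
    have ht : 0 < E u / c := div_pos (hEpos u) hcpos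
    have h1 : E u / c ≤ r := by
      rw [div_le_iff₀ hcpos, hrc]
      exact hEk u
    have h2 : r⁻¹ ≤ E u / c := by
      rw [le_div_iff₀ hcpos, mul_comm, hcr]
      exact hEl u
    have h3 := cosh_le hr1 ht h1 h2
    have h4 : hp u * c⁻¹ + hm u * c = gm hp hm u * (E u / c + (E u / c)⁻¹) := by
      rw [← hE1 u, ← hE2 u, inv_div]
      ring
    rw [h4, mul_comm (r + r⁻¹)]
    exact mul_le_mul_of_nonneg_left h3 (hgpos u).le
  -- the data of the planar lemma
  set gk := gm hp hm k with hgk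
  set gl := gm hp hm l with hgl
  have hgkp : 0 < gk := hgpos k
  have hglp : 0 < gl := hgpos l
  have hxp : hp k = gk * (r * c) := by rw [hrc]; exact (hE1 k).symm
  have hyp : hp l = gl * (c * r⁻¹) := by rw [hcr]; exact (hE1 l).symm
  have hxm : hm k = gk * (r * c)⁻¹ := by rw [hrc]; exact (hE2 k).symm
  have hym : hm l = gl * (c * r⁻¹)⁻¹ := by rw [hcr]; exact (hE2 l).symm
  set g1 : EI ι → ℝ := fun e => EG b1 q e * gk with hg1
  set g2 : EI ι → ℝ := fun e => EG b2 q e * gl with hg2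
  set Ap : EI ι → ℝ := fun e => EA q hp e * c⁻¹ with hAp
  set Am : EI ι → ℝ := fun e => EA q hm e * c with hAm
  set A0 : EI ι → ℝ := fun e => EA q (gm hp hm) e * 1 with hA0
  have a1 : ∀ e, g1 e * r = EG b1 q e * (hp k * c⁻¹) := by
    intro e; rw [hxp]; simp only [hg1]; field_simp
  have a2 : ∀ e, g2 e * r⁻¹ = EG b2 q e * (hp l * c⁻¹) := by
    intro e; rw [hyp]; simp only [hg2]; field_simp
  have b1' : ∀ e, g1 e * r⁻¹ = EG b1 q e * (hm k * c) := by
    intro e; rw [hxm]; simp only [hg1]; field_simp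
  have b2' : ∀ e, g2 e * r = EG b2 q e * (hm l * c) := by
    intro e; rw [hym]; simp only [hg2]; field_simp
  have c1 : ∀ e, g1 e = EG b1 q e * (gk * 1) := by
    intro e; simp only [hg1]; ring
  have c2 : ∀ e, g2 e = EG b2 q e * (gl * 1) := by
    intro e; simp only [hg2]; ring
  have hci : 0 < c⁻¹ := inv_pos.2 hcpos
  have p1 := proj_eq hel (hpp k) (hpp l) hci k1 k2 k3 l1 l2 l3 rfl rfl a1 a2
    (A := Ap) (fun e => rfl)
  have p2 := proj_eq hel (hmp k) (hmp l) hcpos k1 k2 k3 l1 l2 l3 rfl rfl b1' b2'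
    (A := Am) (fun e => rfl)
  have p3 := proj_eq hel hgkp hglp one_pos k1 k2 k3 l1 l2 l3 hgk.symm hgl.symm c1 c2
    (A := A0) (fun e => rfl)
  have s1 : Sym g1 g2 Ap := sym_EG b1 b2 q hp gk gl c⁻¹
  have s2 : Sym g1 g2 Am := sym_EG b1 b2 q hm gk gl c
  have s3 : Sym g1 g2 A0 := sym_EG b1 b2 q (gm hp hm) gk gl 1
  have hA : ∀ e, Ap e + Am e ≤ (r + r⁻¹) * A0 e := by
    intro e
    have := EA_le (q := q) hH e
    simpa only [hAp, hAm, hA0, mul_one] using this
  have q1 := mem_Q hel (hpp k) (hpp l) hci k1 k2 k3 l1 l2 l3 rfl rfl a1 a2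
    (A := Ap) (fun e => rfl) hz1
  have q2 := mem_Q hel (hpp k) (hpp l) hci k1 k2 k3 l1 l2 l3 rfl rfl a1 a2
    (A := Ap) (fun e => rfl) hz1'
  have q3 := mem_Q hel (hmp k) (hmp l) hcpos k1 k2 k3 l1 l2 l3 rfl rfl b1' b2'
    (A := Am) (fun e => rfl) hv1
  have q4 := mem_Q hel (hmp k) (hmp l) hcpos k1 k2 k3 l1 l2 l3 rfl rfl b1' b2'
    (A := Am) (fun e => rfl) hv1'
  have key := cl (EI ι) g1 g2 Ap Am A0 r hr1 s1 s2 s3 hA
    ⟨_, q1, by simp only [hy1]; exact div_self (hpp k).ne'⟩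
    ⟨_, q2, by simp only [hy1']; exact div_self (hpp l).ne'⟩
    ⟨_, q3, by simp only [hw1]; exact div_self (hmp k).ne'⟩
    ⟨_, q4, by simp only [hw1']; exact div_self (hmp l).ne'⟩
  rw [p1, p2, p3, real_scl (hpp k) (hpp l), real_scl (hmp k) (hmp l), real_scl hgkp hglp]
  set ap := (volume : Measure (ℝ × ℝ)).real (Q (fun e => g1 e * r) (fun e => g2 e * r⁻¹) Ap)
  set am := (volume : Measure (ℝ × ℝ)).real (Q (fun e => g1 e * r⁻¹) (fun e => g2 e * r) Am)
  set a0 := (volume : Measure (ℝ × ℝ)).real (Q g1 g2 A0)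
  have hap : 0 ≤ ap := measureReal_nonneg
  have ham : 0 ≤ am := measureReal_nonneg
  have ha0 : 0 ≤ a0 := measureReal_nonneg
  have e1 : hp k * hp l * ap * (hm k * hm l * am) = (gk * gl) ^ 2 * (ap * am) := by
    have h1 : hp k * hm k = gk * gk := (hgg k).symm
    have h2 : hp l * hm l = gl * gl := (hgg l).symm
    calc hp k * hp l * ap * (hm k * hm l * am) = (hp k * hm k) * (hp l * hm l) * (ap * am) := by
          ring
      _ = (gk * gl) ^ 2 * (ap * am) := by rw [h1, h2]; ring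
  rw [e1]
  have e2 : ap * am ≤ a0 ^ 2 := by nlinarith [sq_nonneg (ap - am)]
  calc (gk * gl) ^ 2 * (ap * am) ≤ (gk * gl) ^ 2 * a0 ^ 2 :=
        mul_le_mul_of_nonneg_left e2 (sq_nonneg _)
    _ = (gk * gl * a0) ^ 2 := by ring

end Pool.Agent.Helper73.LB3
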